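import Pool.Agent.Work.MP_db9399_px.Interface
import Pool.Agent.Work.MP_8d2cba_co_helper57.MCD

/-! MP_db9399, PARTX: block PBM (McDiarmid's inequality for `pr`). -/

set_option autoImplicit false

namespace Pool.Agent.Work.MP_db9399_px.helper31

open Finset Classical
open Pool.Agent.Work.MP_db9399_all (pr)
open Pool.Agent.Work.MP_db9399_px

universe u

theorem stmt_PBM : Stmt_PBM.{u} := by
  intro J _ m F c s t hm hF hcs hs ht
  set n := Fintype.card J with hn
  let e : J ≃ Fin n := Fintype.equivFin J
  let E : (J → Fin m) ≃ (Fin n → Fin m) := Equiv.arrowCongr e (Equiv.refl _)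
  have hE : ∀ g : Fin n → Fin m, ∀ y, E.symm g y = g (e y) := by
    intro g y
    simp [E, Equiv.arrowCongr]
  have hm' : (m : ℝ) ≠ 0 := by positivity
  have hcard : (Fintype.card (J → Fin m) : ℝ) = (m : ℝ) ^ n := by
    simp [hn]
  have hav : ∑ g : Fin n → Fin m, (∏ _i : Fin n, (1 / (m : ℝ))) * F (E.symm g) = avg F := by
    unfold avg
    rw [hcard, ← Finset.mul_sum, E.symm.sum_comp]
    simp only [Finset.prod_const, Finset.card_univ, Fintype.card_fin]
    rw [one_div, inv_pow]
    field_simp
  have key := Pool.OM.helper57.stmt_MCD (Fin n) (Fin m) (fun _ _ => 1 / (m : ℝ))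
    (fun g => F (E.symm g)) (fun i => c (e.symm i)) s t
    (fun _ _ => by positivity)
    (fun _ => by simp [Finset.sum_const, hm'])
    (by
      intro i g g' hg
      have := hF (e.symm i) (E.symm g) (E.symm g') (by
        intro z hz
        rw [hE, hE]
        apply hg
        intro h
        exact hz (by rw [← h]; simp))
      exact this)
    (by
      rw [Equiv.sum_comp e.symm (fun y => c y ^ 2)]
      exact hcs)
    hs ht
  rw [hav] at key
  refine le_trans (le_of_eq ?_) key
  unfold pr
  rw [hcard]
  simp only [Finset.prod_const, Finset.card_univ, Fintype.card_fin, Finset.sum_const,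
    nsmul_eq_mul]
  rw [one_div, inv_pow, div_eq_mul_inv]
  congr 2
  refine Finset.card_equiv E ?_
  intro f
  simp

end Pool.Agent.Work.MP_db9399_px.helper31
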