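import Pool.Agent.Work.MP_db9399_px.Interface

/-! MP_db9399, PARTX: block UNI (law of one atom and of two atoms). -/

set_option autoImplicit false

namespace Pool.Agent.Work.MP_db9399_px.helper31

open Finset Classical
open Pool.Agent.Work.MP_db9399_all (pr)
open Pool.Agent.Work.MP_db9399_px

universe u

/-- probability of a box -/
lemma pr_box {J : Type u} [Fintype J] {m : ℕ} (_hm : 0 < m) (S : J → Finset (Fin m)) :
    pr (fun f : J → Fin m => ∀ j, f j ∈ S j) = ∏ j, ((S j).card : ℝ) / m := by
  have h2 : (Fintype.card (J → Fin m) : ℝ) = ∏ _j : J, (m : ℝ) := by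
    simp [Fintype.card_pi, Finset.prod_const]
  unfold pr
  rw [h2, Finset.prod_div_distrib]
  congr 1
  rw [← Nat.cast_prod, Nat.cast_inj, ← Fintype.card_piFinset]
  congr 1
  ext f
  simp [Fintype.mem_piFinset]

lemma card_perm_eq {M : ℕ} (x i j : Fin M) :
    (univ.filter (fun σ : Equiv.Perm (Fin M) => σ x = i)).card =
      (univ.filter (fun σ : Equiv.Perm (Fin M) => σ x = j)).card := by
  refine Finset.card_bij (fun σ _ => Equiv.swap i j * σ) ?_ ?_ ?_
  · intro σ hσ
    simp only [mem_filter, mem_univ, true_and] at hσ ⊢
    rw [Equiv.Perm.mul_apply, hσ, Equiv.swap_apply_left]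
  · intro σ _ τ _ h
    exact mul_left_cancel h
  · intro σ hσ
    simp only [mem_filter, mem_univ, true_and] at hσ
    refine ⟨Equiv.swap i j * σ, ?_, ?_⟩
    · simp only [mem_filter, mem_univ, true_and]
      rw [Equiv.Perm.mul_apply, hσ, Equiv.swap_apply_right]
    · rw [← mul_assoc, Equiv.swap_mul_self, one_mul]

lemma card_perm_mem {M : ℕ} (x : Fin M) (P : Finset (Fin M)) :
    (univ.filter (fun σ : Equiv.Perm (Fin M) => σ x ∈ P)).card * M = P.card * M.factorial := by
  have h1 : ∀ Q : Finset (Fin M), (univ.filter (fun σ : Equiv.Perm (Fin M) => σ x ∈ Q)).card =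
      Q.card * (univ.filter (fun σ : Equiv.Perm (Fin M) => σ x = x)).card := by
    intro Q
    rw [Finset.card_eq_sum_card_fiberwise (f := fun σ : Equiv.Perm (Fin M) => σ x) (t := Q)
      (by intro σ hσ; simpa using hσ)]
    rw [Finset.sum_const_nat (m := (univ.filter (fun σ : Equiv.Perm (Fin M) => σ x = x)).card)]
    intro i hi
    rw [← card_perm_eq x i x]
    congr 1
    ext σ
    simp only [mem_filter, mem_univ, true_and]
    constructor
    · exact fun h => h.2
    · intro h; exact ⟨h ▸ hi, h⟩
  have h2 := h1 univ
  simp only [mem_univ, Finset.filter_true, Finset.card_univ, Fintype.card_perm,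
    Fintype.card_fin] at h2
  rw [h1 P, h2]
  ring

lemma card_per_mem {M : ℕ} (x : Fin M) (P : Finset (Fin M)) (hM : 0 < M) :
    ((univ.filter (fun a : Fin M.factorial => per M a x ∈ P)).card : ℝ) / (M.factorial : ℕ) =
      (P.card : ℝ) / M := by
  have h1 : (univ.filter (fun a : Fin M.factorial => per M a x ∈ P)).card =
      (univ.filter (fun σ : Equiv.Perm (Fin M) => σ x ∈ P)).card := by
    refine Finset.card_equiv (per M) ?_
    intro a
    simp
  have h2 := card_perm_mem x P
  rw [← h1] at h2
  have hM' : (M : ℝ) ≠ 0 := by positivity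
  have hF : ((M.factorial : ℕ) : ℝ) ≠ 0 := by positivity
  rw [div_eq_div_iff hF hM']
  exact_mod_cast h2

theorem stmt_UNI : Stmt_UNI.{u} := by
  intro V _ M blk pos P Q hM hB
  have hF : 0 < M.factorial := Nat.factorial_pos M
  have hF' : ((M.factorial : ℕ) : ℝ) ≠ 0 := by positivity
  set A : V → Finset (Fin M) → Finset (Fin M.factorial) := fun v R =>
    univ.filter (fun a : Fin M.factorial => per M a (pos v) ∈ R) with hA
  have hAc : ∀ v R, ((A v R).card : ℝ) / (M.factorial : ℕ) = (R.card : ℝ) / M :=
    fun v R => card_per_mem (pos v) R hM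
  constructor
  · intro v
    have h := pr_box (J := V) hF (fun j => if j = blk v then A v P else univ)
    have e1 : (fun f : V → Fin M.factorial => atm M blk pos f v ∈ P) =
        (fun f : V → Fin M.factorial => ∀ j, f j ∈ (if j = blk v then A v P else univ)) := by
      funext f
      apply propext
      constructor
      · intro hf j
        split_ifs with hj
        · subst hj
          simpa [hA, atm] using hf
        · exact mem_univ _
      · intro hf
        have := hf (blk v)
        rw [if_pos rfl] at this
        simpa [hA, atm] using this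
    rw [e1, h, ← hAc v P]
    rw [Finset.prod_eq_single (blk v)]
    · rw [if_pos rfl]
    · intro j _ hj
      rw [if_neg hj, Finset.card_univ, Fintype.card_fin, div_self hF']
    · intro h; exact absurd (mem_univ _) h
  · intro v w hvw
    have h := pr_box (J := V) hF
      (fun j => if j = blk v then A v P else if j = blk w then A w Q else univ)
    have e1 : (fun f : V → Fin M.factorial => atm M blk pos f v ∈ P ∧ atm M blk pos f w ∈ Q) =
        (fun f : V → Fin M.factorial => ∀ j, f j ∈
          (if j = blk v then A v P else if j = blk w then A w Q else univ)) := by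
      funext f
      apply propext
      constructor
      · intro hf j
        split_ifs with hj hj'
        · subst hj
          simpa [hA, atm] using hf.1
        · subst hj'
          simpa [hA, atm] using hf.2
        · exact mem_univ _
      · intro hf
        have h1 := hf (blk v)
        have h2 := hf (blk w)
        rw [if_pos rfl] at h1
        rw [if_neg (Ne.symm hvw), if_pos rfl] at h2
        exact ⟨by simpa [hA, atm] using h1, by simpa [hA, atm] using h2⟩
    rw [e1, h, ← hAc v P, ← hAc w Q]
    have e2 : ∀ j : V, ((if j = blk v then A v P else if j = blk w then A w Q else univ :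
        Finset (Fin M.factorial)).card : ℝ) / (M.factorial : ℕ) =
        (if j = blk v then ((A v P).card : ℝ) / (M.factorial : ℕ) else 1) *
        (if j = blk w then ((A w Q).card : ℝ) / (M.factorial : ℕ) else 1) := by
      intro j
      by_cases hj : j = blk v
      · have hj' : j ≠ blk w := by rw [hj]; exact hvw
        rw [if_pos hj, if_pos hj, if_neg hj', mul_one]
      · rw [if_neg hj, if_neg hj, one_mul]
        by_cases hj' : j = blk w
        · rw [if_pos hj', if_pos hj']
        · rw [if_neg hj', if_neg hj', Finset.card_univ, Fintype.card_fin, div_self hF']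
    rw [Finset.prod_congr rfl (fun j _ => e2 j), Finset.prod_mul_distrib,
      Finset.prod_ite_eq', Finset.prod_ite_eq', if_pos (mem_univ _), if_pos (mem_univ _)]

end Pool.Agent.Work.MP_db9399_px.helper31
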