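import Pool.Agent.Work.MP_db9399_px.LInterface

/-! MP_db9399, PARTX: block CNT (number of codes). -/

set_option autoImplicit false

namespace Pool.Agent.Work.MP_db9399_px.helper31

open Finset Classical
open Pool.Agent.Work.MP_db9399_all (nb)
open Pool.Agent.Work.MP_db9399_px

universe u

/-- the walk coded by `s` -/
noncomputable def wk {V : Type u} {d L : ℕ} (nx : V → Fin (d + 1) → V) (x : V)
    (s : Fin L → Fin (d + 1)) : ℕ → V
  | 0 => x
  | i + 1 => if h : i < L then nx (wk nx x s i) (s ⟨i, h⟩) else wk nx x s i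

lemma exists_nx {V : Type u} [Fintype V] (G : SimpleGraph V) (d : ℕ)
    (hd : ∀ v, (nb G v).card ≤ d) :
    ∃ nx : V → Fin (d + 1) → V, ∀ v z, (z = v ∨ G.Adj v z) → ∃ j, nx v j = z := by
  have h1 : ∀ v : V, ∃ f : Fin (d + 1) → V, ∀ z, (z = v ∨ G.Adj v z) → ∃ j, f j = z := by
    intro v
    set N : Finset V := insert v (nb G v) with hN
    have hc : N.card ≤ d + 1 := (Finset.card_insert_le _ _).trans (by have := hd v; omega)
    refine ⟨fun j => if h : (j : ℕ) < N.card then (N.equivFin.symm ⟨j, h⟩ : V) else v, ?_⟩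
    intro z hz
    have hzN : z ∈ N := by
      rcases hz with rfl | hz
      · exact mem_insert_self _ _
      · exact mem_insert_of_mem (by simp [nb, hz])
    refine ⟨⟨(N.equivFin ⟨z, hzN⟩ : ℕ), lt_of_lt_of_le (N.equivFin ⟨z, hzN⟩).2 hc⟩, ?_⟩
    have h : ((N.equivFin ⟨z, hzN⟩ : Fin N.card) : ℕ) < N.card := (N.equivFin ⟨z, hzN⟩).2
    simp only [dif_pos h, Fin.eta, Equiv.symm_apply_apply]
  choose nx hnx using h1
  exact ⟨nx, hnx⟩

theorem stmt_CNT : Stmt_CNT.{u} := by
  intro V _ G d L x hd
  obtain ⟨nx, hnx⟩ := exists_nx G d hd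
  let Φ : (Fin L → Fin (d + 1)) × (Fin (L + 1) → Bool × Bool) → Finset V × Finset V := fun c =>
    ((univ.filter (fun i : Fin (L + 1) => (c.2 i).1 = true)).image (fun i : Fin (L + 1) => wk nx x c.1 (i : ℕ)),
     (univ.filter (fun i : Fin (L + 1) => (c.2 i).2 = true)).image (fun i : Fin (L + 1) => wk nx x c.1 (i : ℕ)))
  have hsub : Codes G x L ⊆ (univ : Finset _).image Φ := by
    intro c hc
    simp only [Codes, mem_filter, mem_univ, true_and] at hc
    obtain ⟨w, hw, hw0, hcov⟩ := hc
    have hs : ∀ i : Fin L, ∃ j, nx (w i) j = w (i + 1) := fun i => hnx _ _ (hw i i.2)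
    choose s hs using hs
    have hwk : ∀ i, i ≤ L → wk nx x s i = w i := by
      intro i
      induction i with
      | zero => intro _; simp [wk, hw0]
      | succ i ih =>
        intro hi
        have hi' : i < L := hi
        rw [wk, dif_pos hi', ih hi'.le]
        exact hs ⟨i, hi'⟩
    simp only [mem_image, mem_univ, true_and]
    refine ⟨(s, fun i => (decide (w i ∈ c.1), decide (w i ∈ c.2))), ?_⟩
    simp only [Φ]
    refine Prod.ext ?_ ?_
    · ext v
      simp only [mem_image, mem_filter, mem_univ, true_and, decide_eq_true_eq]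
      constructor
      · rintro ⟨i, hi, rfl⟩
        rw [hwk i (by have := i.2; omega)]
        exact hi
      · intro hv
        obtain ⟨i, hi, rfl⟩ := hcov v (mem_union_left _ hv)
        exact ⟨⟨i, by omega⟩, hv, hwk i hi⟩
    · ext v
      simp only [mem_image, mem_filter, mem_univ, true_and, decide_eq_true_eq]
      constructor
      · rintro ⟨i, hi, rfl⟩
        rw [hwk i (by have := i.2; omega)]
        exact hi
      · intro hv
        obtain ⟨i, hi, rfl⟩ := hcov v (mem_union_right _ hv)
        exact ⟨⟨i, by omega⟩, hv, hwk i hi⟩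
  calc (Codes G x L).card ≤ ((univ : Finset _).image Φ).card := card_le_card hsub
    _ ≤ (univ : Finset ((Fin L → Fin (d + 1)) × (Fin (L + 1) → Bool × Bool))).card :=
        card_image_le
    _ = (d + 1) ^ L * 4 ^ (L + 1) := by simp [Fintype.card_prod]
    _ ≤ (d + 1) ^ (L + 1) * 4 ^ (L + 1) :=
        Nat.mul_le_mul_right _ (Nat.pow_le_pow_right (by omega) (by omega))
    _ = (4 * (d + 1)) ^ (L + 1) := by rw [← mul_pow, mul_comm]

end Pool.Agent.Work.MP_db9399_px.helper31
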